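import Pool.Agent.H10.LDV.Stmts

/-!
# LDV, row CHM: choice lemma for `m ≥ 2 / 5`
-/

set_option autoImplicit false

namespace Pool.LDV

open Finset Pool.Agent.H98.ABCR Pool.SHA Pool.BL

theorem Chm44.phi3_anti {x g g' : ℝ} (h : g ≤ g') : Phi3 x g' ≤ Phi3 x g := by
  unfold Phi3
  refine max_le_max le_rfl (max_le_max ?_ ?_) <;> linarith

theorem Chm44.split (J : ℕ) (hJ : 5 ≤ J) :
    Icc 1 J = insert 1 (insert 2 (insert 3 (insert 4 (Icc 5 J)))) := by
  ext e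
  simp only [mem_Icc, mem_insert]
  omega

theorem Chm44.sum_split (J : ℕ) (hJ : 5 ≤ J) (f : ℕ → ℝ) :
    ∑ e ∈ Icc 1 J, f e = f 1 + f 2 + f 3 + f 4 + ∑ e ∈ Icc 5 J, f e := by
  rw [Chm44.split J hJ, sum_insert (by simp), sum_insert (by simp), sum_insert (by simp),
    sum_insert (by simp)]
  ring

/-- the set of exponents of a set `K` of labels -/
def Chm44.real (K B S : Finset ℕ) : Finset ℕ :=
  K.filter (· ≤ 4) ∪ ((if 5 ∈ K then B else ∅) ∪ (if 6 ∈ K then S else ∅))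

theorem Chm44.sum_real (K B S : Finset ℕ) (hB : ∀ e ∈ B, 5 ≤ e) (hS : ∀ e ∈ S, 5 ≤ e)
    (hBS : Disjoint B S) (f : ℕ → ℝ) :
    ∑ e ∈ Chm44.real K B S, f e = ∑ e ∈ K.filter (· ≤ 4), f e +
      ((if 5 ∈ K then ∑ e ∈ B, f e else 0) + (if 6 ∈ K then ∑ e ∈ S, f e else 0)) := by
  unfold Chm44.real
  rw [sum_union, sum_union]
  · congr 1
    congr 1
    · split_ifs <;> simp
    · split_ifs <;> simp
  · split_ifs <;> simp [hBS]
  · rw [disjoint_left]
    intro e he hu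
    have h4 := (mem_filter.1 he).2
    rcases mem_union.1 hu with h | h
    · split_ifs at h with h5
      · have := hB e h
        omega
      · simp at h
    · split_ifs at h with h6
      · have := hS e h
        omega
      · simp at h

theorem Chm44.real_self (K : Finset ℕ) (hK : K ⊆ Icc 2 6) : Chm44.real K {5} {6} = K := by
  unfold Chm44.real
  ext e
  simp only [mem_union, mem_filter]
  constructor
  · rintro (h | h | h)
    · exact h.1
    · split_ifs at h with h5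
      · rw [mem_singleton] at h
        rw [h]
        exact h5
      · simp at h
    · split_ifs at h with h6
      · rw [mem_singleton] at h
        rw [h]
        exact h6
      · simp at h
  · intro h
    have h26 := mem_Icc.1 (hK h)
    rcases Nat.lt_or_ge e 5 with h5 | h5
    · exact Or.inl ⟨h, by omega⟩
    · rcases Nat.lt_or_ge e 6 with h6 | h6
      · have e5 : e = 5 := by omega
        subst e5
        right
        left
        rw [if_pos h]
        exact mem_singleton_self 5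
      · have e6 : e = 6 := by omega
        subst e6
        right
        right
        rw [if_pos h]
        exact mem_singleton_self 6

/-- the labels of one coordinate -/
structure Chm44.Lab (J : ℕ) (p : ℕ → ℝ) (t : ℝ) (c g : ℕ → ℝ) : Prop where
  hc : ∀ n, 0 ≤ c n
  hg : ∀ n, 0 ≤ g n
  hx : ∑ e ∈ Icc 1 J, p e = c 1 + c 2 + c 3 + c 4 + c 5 + c 6
  hG : g 1 + g 2 + g 3 + g 4 + g 5 + g 6 = t + ∑ e ∈ Icc 1 J, (e : ℝ) * p e
  hgc : g 1 = c 1 ∧ g 2 = 2 * c 2 ∧ g 3 = 3 * c 3 ∧ g 4 = 4 * c 4 ∧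
    5 * c 5 ≤ g 5 ∧ 5 * c 6 ≤ g 6 ∧ c 6 ≤ 1 / 10
  h5 : (c 5 = 0 ∧ g 5 = 0) ∨ 1 / 10 + (∑ e ∈ Icc 1 J, p e) / 2 < c 5
  hK : ∀ K : Finset ℕ, K ⊆ Icc 2 6 → ∃ K' : Finset ℕ, K' ⊆ Icc 1 J ∧
    ∑ e ∈ K', p e = ∑ n ∈ K, c n ∧ ∑ n ∈ K, g n ≤ t + ∑ e ∈ K', (e : ℝ) * p e
  hcp : ∀ e ∈ Icc 1 4, c e = p e
  hbig : ∃ e ∈ Icc 2 J, c 5 ≤ p e

theorem Chm44.lab (hS : S_SUB) (hLK : S_LPK) (J : ℕ) (hJ : 5 ≤ J) (p : ℕ → ℝ)
    (t xj xk : ℝ) (hp : ∀ e, 0 ≤ p e) (ht : 0 ≤ t) (hj : 0 ≤ xj) (hk : 0 ≤ xk)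
    (hsum : ∑ e ∈ Icc 1 J, p e + xj + xk ≤ 1)
    (a1 : 3 / 5 < ∑ e ∈ Icc 1 J, p e + xj) (a2 : 3 / 5 < ∑ e ∈ Icc 1 J, p e + xk)
    (a3 : 3 / 5 < xj + xk)
    (hC : ∀ K : Finset ℕ, K ⊆ Icc 1 J → 3 / 5 < ∑ e ∈ K, p e +
      (Phi3 xj (t + ∑ e ∈ K, (e : ℝ) * p e) + Phi3 xk (t + ∑ e ∈ K, (e : ℝ) * p e)) / 2) :
    ∃ c g : ℕ → ℝ, Chm44.Lab J p t c g := by
  classical
  obtain ⟨x, hx⟩ : ∃ x, x = ∑ e ∈ Icc 1 J, p e := ⟨_, rfl⟩
  rw [← hx] at hsum a1 a2
  have hx0 : 0 ≤ x := by rw [hx]; exact sum_nonneg fun e _ => hp e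
  obtain ⟨B, hB⟩ : ∃ B, B = (Icc 5 J).filter (fun e => 1 / 10 + x / 2 < p e) := ⟨_, rfl⟩
  obtain ⟨S, hSd⟩ : ∃ S, S = (Icc 5 J).filter (fun e => ¬ 1 / 10 + x / 2 < p e) := ⟨_, rfl⟩
  have hBI : B ⊆ Icc 5 J := by rw [hB]; exact filter_subset _ _
  have hSI : S ⊆ Icc 5 J := by rw [hSd]; exact filter_subset _ _
  have h15 : Icc 5 J ⊆ Icc 1 J := Icc_subset_Icc_left (by norm_num)
  have hB5 : ∀ e ∈ B, 5 ≤ e := fun e he => (mem_Icc.1 (hBI he)).1
  have hS5 : ∀ e ∈ S, 5 ≤ e := fun e he => (mem_Icc.1 (hSI he)).1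
  have hBS : Disjoint B S := by
    rw [hB, hSd]
    exact disjoint_filter_filter_not _ _ _
  have hBSs : ∀ f : ℕ → ℝ, ∑ e ∈ Icc 5 J, f e = ∑ e ∈ B, f e + ∑ e ∈ S, f e := by
    intro f
    rw [hB, hSd]
    exact (sum_filter_add_sum_filter_not _ _ _).symm
  have h5 : ∀ K : Finset ℕ, (∀ e ∈ K, 5 ≤ e) → 5 * ∑ e ∈ K, p e ≤ ∑ e ∈ K, (e : ℝ) * p e := by
    intro K hK
    rw [mul_sum]
    refine sum_le_sum fun e he => mul_le_mul_of_nonneg_right ?_ (hp e)
    exact_mod_cast hK e he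
  -- the small exponents have total cost less than 1 / 10
  have hS10 : ∑ e ∈ S, p e < 1 / 10 := by
    by_contra hcon
    have hcon := not_lt.1 hcon
    obtain ⟨K, hK, k1, k2⟩ := hS S p (1 / 10) (1 / 10 + x / 2)
      (fun e he => ⟨hp e, by
        rw [hSd] at he
        exact not_lt.1 (mem_filter.1 he).2⟩) (by norm_num) (by linarith) hcon
    have q1 := hC K ((hK.trans hSI).trans h15)
    have q2 := h5 K (fun e he => hS5 e (hK he))
    have q3 := hLK x xj xk (∑ e ∈ K, p e) (t + ∑ e ∈ K, (e : ℝ) * p e) hx0 hj hk hsum a1 a2 a3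
      k1 k2 (by linarith)
    linarith
  -- at most one big exponent
  have hB1 : B = ∅ ∨ ∃ e0 ∈ Icc 5 J, B = {e0} ∧ 1 / 10 + x / 2 < p e0 := by
    rcases B.eq_empty_or_nonempty with h | ⟨e0, he0⟩
    · exact Or.inl h
    · right
      refine ⟨e0, hBI he0, ?_, ?_⟩
      · ext e
        rw [mem_singleton]
        constructor
        · intro he
          by_contra hne
          have u1 : p e0 + p e ≤ ∑ e ∈ Icc 1 J, p e := by
            have := sum_le_sum_of_subset_of_nonneg (f := p)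
              (show ({e0, e} : Finset ℕ) ⊆ Icc 1 J from by
                intro n hn
                rcases mem_insert.1 hn with h | h
                · rw [h]; exact h15 (hBI he0)
                · rw [mem_singleton.1 h]; exact h15 (hBI he)) (fun n _ _ => hp n)
            rwa [sum_pair (Ne.symm hne)] at this
          have u2 : 1 / 10 + x / 2 < p e0 := by
            rw [hB] at he0
            exact (mem_filter.1 he0).2
          have u3 : 1 / 10 + x / 2 < p e := by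
            rw [hB] at he
            exact (mem_filter.1 he).2
          linarith
        · intro he
          rw [he]
          exact he0
      · rw [hB] at he0
        exact (mem_filter.1 he0).2
  obtain ⟨c, hc⟩ : ∃ c : ℕ → ℝ, c = fun n : ℕ => if n = 5 then ∑ e ∈ B, p e else
    if n = 6 then ∑ e ∈ S, p e else p n := ⟨_, rfl⟩
  obtain ⟨g, hg⟩ : ∃ g : ℕ → ℝ, g = fun n : ℕ => if n = 5 then ∑ e ∈ B, (e : ℝ) * p e else
    if n = 6 then t + ∑ e ∈ S, (e : ℝ) * p e else (n : ℝ) * p n := ⟨_, rfl⟩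
  have c5 : c 5 = ∑ e ∈ B, p e := by rw [hc]; simp
  have c6 : c 6 = ∑ e ∈ S, p e := by rw [hc]; simp
  have g5 : g 5 = ∑ e ∈ B, (e : ℝ) * p e := by rw [hg]; simp
  have g6 : g 6 = t + ∑ e ∈ S, (e : ℝ) * p e := by rw [hg]; simp
  have c4 : ∀ e, e ≤ 4 → c e = p e := by
    intro e he
    rw [hc]
    simp only
    rw [if_neg (by omega), if_neg (by omega)]
  have g4 : ∀ e, e ≤ 4 → g e = (e : ℝ) * p e := by
    intro e he
    rw [hg]
    simp only
    rw [if_neg (by omega), if_neg (by omega)]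
  have s1 := Chm44.sum_split J hJ p
  have s2 := Chm44.sum_split J hJ (fun e => (e : ℝ) * p e)
  rw [hBSs] at s1
  simp only [hBSs (fun e => (e : ℝ) * p e)] at s2
  push_cast at s2
  have m1 := c4 1 (by norm_num)
  have m2 := c4 2 (by norm_num)
  have m3 := c4 3 (by norm_num)
  have m4 := c4 4 (by norm_num)
  have n1 := g4 1 (by norm_num)
  have n2 := g4 2 (by norm_num)
  have n3 := g4 3 (by norm_num)
  have n4 := g4 4 (by norm_num)
  push_cast at n1 n2 n3 n4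
  have hSg : 0 ≤ ∑ e ∈ S, (e : ℝ) * p e :=
    sum_nonneg fun e _ => mul_nonneg (Nat.cast_nonneg e) (hp e)
  refine ⟨c, g, ?_, ?_, ?_, ?_, ?_, ?_, ?_, ?_, ?_⟩
  · intro n
    rw [hc]
    simp only
    split_ifs
    · exact sum_nonneg fun e _ => hp e
    · exact sum_nonneg fun e _ => hp e
    · exact hp n
  · intro n
    rw [hg]
    simp only
    split_ifs
    · exact sum_nonneg fun e _ => mul_nonneg (Nat.cast_nonneg e) (hp e)
    · linarith
    · exact mul_nonneg (Nat.cast_nonneg n) (hp n)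
  · linarith
  · linarith
  · refine ⟨by linarith, by linarith, by linarith, by linarith, ?_, ?_, ?_⟩
    · rw [c5, g5]
      exact h5 B hB5
    · rw [c6, g6]
      have := h5 S hS5
      linarith
    · rw [c6]
      exact hS10.le
  · rw [← hx]
    rcases hB1 with h | ⟨e0, he0, h, h'⟩
    · left
      rw [c5, g5, h]
      simp
    · right
      rw [c5, h, sum_singleton]
      exact h'
  · intro K hK
    refine ⟨Chm44.real K B S, ?_, ?_, ?_⟩
    · intro e he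
      unfold Chm44.real at he
      rcases mem_union.1 he with h | h
      · have h1 := mem_filter.1 h
        have h2 := mem_Icc.1 (hK h1.1)
        exact mem_Icc.2 ⟨by omega, by omega⟩
      · rcases mem_union.1 h with h | h
        · split_ifs at h with h6
          · exact h15 (hBI h)
          · simp at h
        · split_ifs at h with h6
          · exact h15 (hSI h)
          · simp at h
    · rw [Chm44.sum_real K B S hB5 hS5 hBS]
      conv_rhs => rw [← Chm44.real_self K hK]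
      rw [Chm44.sum_real K {5} {6} (by simp) (by simp) (by simp), sum_singleton, sum_singleton,
        c5, c6]
      congr 1
      exact sum_congr rfl fun e he => (c4 e (mem_filter.1 he).2).symm
    · rw [Chm44.sum_real K B S hB5 hS5 hBS]
      conv_lhs => rw [← Chm44.real_self K hK]
      rw [Chm44.sum_real K {5} {6} (by simp) (by simp) (by simp), sum_singleton, sum_singleton,
        g5, g6]
      have e1 : ∑ e ∈ K.filter (· ≤ 4), g e = ∑ e ∈ K.filter (· ≤ 4), (e : ℝ) * p e :=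
        sum_congr rfl fun e he => g4 e (mem_filter.1 he).2
      rw [e1]
      split_ifs <;> linarith
  · intro e he
    exact c4 e (mem_Icc.1 he).2
  · rcases hB1 with h | ⟨e0, he0, h, _⟩
    · refine ⟨2, mem_Icc.2 ⟨le_rfl, by omega⟩, ?_⟩
      rw [c5, h, sum_empty]
      exact hp 2
    · have := mem_Icc.1 he0
      refine ⟨e0, mem_Icc.2 ⟨by omega, this.2⟩, ?_⟩
      rw [c5, h, sum_singleton]

/-- **CHM.** -/
theorem chm_thm (hS : S_SUB) (hLK : S_LPK) (hLM : S_LPM) : S_CHM := by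
  intro J m p t a hJ hm hp ht hsum hi ha
  by_contra hA
  unfold Alt at hA
  push Not at hA
  obtain ⟨A, F, C, L, R⟩ := hA
  obtain ⟨σ, hσ⟩ : ∃ σ : Equiv.Perm (Fin 3), σ 0 = a := ⟨Equiv.swap 0 a, Equiv.swap_apply_left 0 a⟩
  have hinj : ∀ i j : Fin 3, i ≠ j → σ i ≠ σ j := fun i j h h' => h (σ.injective h')
  have hX : ∀ l, 0 ≤ ∑ e ∈ Icc 1 J, p l e := fun l => sum_nonneg fun e _ => hp l e
  have hsum3 : ∑ e ∈ Icc 1 J, p (σ 0) e + ∑ e ∈ Icc 1 J, p (σ 1) e +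
      ∑ e ∈ Icc 1 J, p (σ 2) e ≤ 1 := by
    have := Equiv.sum_comp σ (fun l => ∑ e ∈ Icc 1 J, p l e)
    rw [Fin.sum_univ_three] at this
    rw [this]
    exact hsum
  have hlab : ∀ i j k : Fin 3, i ≠ j → i ≠ k → j ≠ k →
      ∑ e ∈ Icc 1 J, p i e + ∑ e ∈ Icc 1 J, p j e + ∑ e ∈ Icc 1 J, p k e ≤ 1 →
      ∃ c g : ℕ → ℝ, Chm44.Lab J (p i) (t i) c g := by
    intro i j k hij hik hjk hs
    exact Chm44.lab hS hLK J hJ (p i) (t i) _ _ (hp i) (ht i) (hX j) (hX k) hs (A i j hij)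
      (A i k hik) (A j k hjk) (fun K hK => C i j k K hij hik hjk hK)
  have hlab' : ∀ l : Fin 3, ∃ c g : ℕ → ℝ, Chm44.Lab J (p (σ l)) (t (σ l)) c g := by
    intro l
    fin_cases l
    · exact hlab (σ 0) (σ 1) (σ 2) (hinj _ _ (by decide)) (hinj _ _ (by decide))
        (hinj _ _ (by decide)) (by linarith)
    · exact hlab (σ 1) (σ 0) (σ 2) (hinj _ _ (by decide)) (hinj _ _ (by decide))
        (hinj _ _ (by decide)) (by linarith)
    · exact hlab (σ 2) (σ 0) (σ 1) (hinj _ _ (by decide)) (hinj _ _ (by decide))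
        (hinj _ _ (by decide)) (by linarith)
  choose c g hcg using hlab'
  have hG : ∀ l, g l 1 + g l 2 + g l 3 + g l 4 + g l 5 + g l 6 =
      t (σ l) + ∑ e ∈ Icc 1 J, (e : ℝ) * p (σ l) e := fun l => (hcg l).hG
  have hle4 : ∀ l e, e ∈ Icc 1 4 → c l e = p (σ l) e := fun l e he => (hcg l).hcp e he
  have hbig : ∀ l e, e ∈ Icc 2 5 → ∃ e' ∈ Icc 2 J, c l e ≤ p (σ l) e' := by
    intro l e he
    have h := mem_Icc.1 he
    rcases Nat.lt_or_ge e 5 with h5 | h5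
    · exact ⟨e, mem_Icc.2 ⟨h.1, by omega⟩, (hle4 l e (mem_Icc.2 ⟨by omega, by omega⟩)).le⟩
    · have e5 : e = 5 := by omega
      rw [e5]
      exact (hcg l).hbig
  have hbig1 : ∀ l e, e ∈ Icc 1 5 → ∃ e' ∈ Icc 1 J, c l e ≤ p (σ l) e' := by
    intro l e he
    have h := mem_Icc.1 he
    rcases Nat.lt_or_ge e 2 with h2 | h2
    · exact ⟨e, mem_Icc.2 ⟨h.1, by omega⟩, (hle4 l e (mem_Icc.2 ⟨h.1, by omega⟩)).le⟩
    · obtain ⟨e', h1, h3⟩ := hbig l e (mem_Icc.2 ⟨h2, h.2⟩)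
      exact ⟨e', Icc_subset_Icc_left (by norm_num) h1, h3⟩
  refine hLM m c g (fun l => ∑ e ∈ Icc 1 J, p (σ l) e) (fun l n => (hcg l).hc n)
    (fun l n => (hcg l).hg n) (fun l => (hcg l).hx) (fun l => (hcg l).hgc)
    (fun l => (hcg l).h5) hsum3 (fun j k hjk => A _ _ (hinj j k hjk)) hm ?_ ?_ ?_ ?_ ?_ ?_ ?_
  · rw [hG 1]
    exact hi _ (by rw [← hσ]; exact hinj 1 0 (by decide))
  · rw [hG 2]
    exact hi _ (by rw [← hσ]; exact hinj 2 0 (by decide))
  · rw [hG 0, hσ]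
    exact ha
  · intro i j k K hij hik hjk hK
    obtain ⟨K', h1, h2, h3⟩ := (hcg i).hK K hK
    have q := C (σ i) (σ j) (σ k) K' (hinj _ _ hij) (hinj _ _ hik) (hinj _ _ hjk) h1
    rw [h2] at q
    have q1 := Chm44.phi3_anti (x := ∑ e ∈ Icc 1 J, p (σ j) e) h3
    have q2 := Chm44.phi3_anti (x := ∑ e ∈ Icc 1 J, p (σ k) e) h3
    show 3 / 5 < ∑ n ∈ K, c i n + (Phi3 (∑ e ∈ Icc 1 J, p (σ j) e) (∑ n ∈ K, g i n) +
      Phi3 (∑ e ∈ Icc 1 J, p (σ k) e) (∑ n ∈ K, g i n)) / 2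
    linarith
  · intro i j k K e hij hik hjk hK he
    obtain ⟨K', h1, h2, h3⟩ := (hcg i).hK K hK
    have he' := mem_Icc.1 he
    have q := L (σ i) (σ j) (σ k) K' e (hinj _ _ hij) (hinj _ _ hik) (hinj _ _ hjk) h1
      (mem_Icc.2 ⟨he'.1, by omega⟩)
    rw [h2] at q
    rw [hle4 j e he, hle4 k e he]
    have q1 : max 0 (p (σ j) e + p (σ k) e - (t (σ i) + ∑ n ∈ K', (n : ℝ) * p (σ i) n)) ≤
        max 0 (p (σ j) e + p (σ k) e - ∑ n ∈ K, g i n) := max_le_max le_rfl (by linarith)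
    show 3 / 5 < ∑ n ∈ K, c i n + (∑ e ∈ Icc 1 J, p (σ j) e - p (σ j) e) +
      (∑ e ∈ Icc 1 J, p (σ k) e - p (σ k) e) + _
    linarith
  · intro i j k e f hij hik hjk he hf
    obtain ⟨e', h1, h2⟩ := hbig j e he
    obtain ⟨f', h3, h4⟩ := hbig k f hf
    have q := F (σ i) (σ j) (σ k) e' f' (hinj _ _ hij) (hinj _ _ hik) (hinj _ _ hjk) h1 h3
    show 3 / 5 < (∑ e ∈ Icc 1 J, p (σ i) e) / 2 + (∑ e ∈ Icc 1 J, p (σ j) e - c j e / 2) +
      (∑ e ∈ Icc 1 J, p (σ k) e - c k f / 2)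
    linarith
  · intro l e hl he
    obtain ⟨e', h1, h2⟩ := hbig1 l e he
    rw [hG 0, hσ]
    have q1 : min (c l e) (m - (t a + ∑ e ∈ Icc 1 J, (e : ℝ) * p a e)) ≤
        min (p (σ l) e') (m - (t a + ∑ e ∈ Icc 1 J, (e : ℝ) * p a e)) := min_le_min h2 le_rfl
    show 3 / 5 < ∑ e ∈ Icc 1 J, p (σ 1) e + ∑ e ∈ Icc 1 J, p (σ 2) e -
      min (c l e) (m - (t a + ∑ e ∈ Icc 1 J, (e : ℝ) * p a e))
    have ha0 : ∀ i : Fin 3, i ≠ 0 → a ≠ σ i := fun i h => by
      rw [← hσ]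
      exact hinj 0 i (Ne.symm h)
    fin_cases l
    · exact absurd rfl hl
    · have q := R (σ 2) (σ 1) e' (ha0 2 (by decide)) (ha0 1 (by decide)) (hinj _ _ (by decide)) h1
      simp only [Fin.mk_one, Fin.isValue] at q1 ⊢
      linarith
    · have q := R (σ 1) (σ 2) e' (ha0 1 (by decide)) (ha0 2 (by decide)) (hinj _ _ (by decide)) h1
      simp only [Fin.reduceFinMk, Fin.isValue] at q1 ⊢
      linarith

end Pool.LDV
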